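import Mathlib

/-!
# Beilinson's conjecture for singular K3 surfaces over the rational numbers
-/

set_option autoImplicit false

namespace Pool.Agent.Q28.SK

open Module

universe u

/-- Singular K3 surfaces `X` over `ℚ`. `V X = H³_M(X, ℚ(4))_tr`; `reg X ξ = (2πi)⁻³ ⟨γ, reg(ξ)⟩`
for a fixed generator `γ` of `H_2(X(ℂ), ℚ)⁻_tr`; `L X = L'(h²_tr(X), -1)`. `Form`: the newforms of
weight 3 with rational coefficients (they have complex multiplication), `CM f`: the discriminant of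
the CM field `K` of `f`, `form X`: the newform of `X` (Livné). For a rational number `d ≠ 0`, `tw d f`
is the twist of `f`: if `f` belongs to the Hecke character `ψ` of `K`, then `tw d f` belongs to the
product of `ψ` with the `m`-th power residue symbol of `d`, where `m` is the number of roots of unity
of `K` (quadratic twists for `m = 2`). `M f = H³_M(M(f), ℚ(4))` for the Chow motive `M(f)` over `ℚ` of
rank 2 with `L(M(f), s) = L(f, s)`. `HF X d = H³_M(X_F, ℚ(4))_tr` for the `ℚ`-algebra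
`F = ℚ[t]/(t^m - d)` of degree `m` over `ℚ`, where `m` belongs to the CM field of `X`. -/
structure SingularK3 where
  Surf : Type u
  V : Surf → Type u
  [groupV : ∀ X, AddCommGroup (V X)]
  [moduleV : ∀ X, Module ℚ (V X)]
  reg : ∀ X, V X →ₗ[ℚ] ℝ
  L : Surf → ℝ
  Form : Type
  form : Surf → Form
  CM : Form → ℤ
  tw : ℚ → Form → Form
  M : Form → Type u
  [groupM : ∀ f, AddCommGroup (M f)]
  [moduleM : ∀ f, Module ℚ (M f)]
  HF : Surf → ℚ → Type u
  [groupF : ∀ X d, AddCommGroup (HF X d)]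
  [moduleF : ∀ X d, Module ℚ (HF X d)]

attribute [instance] SingularK3.groupV SingularK3.moduleV SingularK3.groupM SingularK3.moduleM
  SingularK3.groupF SingularK3.moduleF

/-- the number of roots of unity of the imaginary quadratic field of discriminant `D` -/
def roots (D : ℤ) : ℕ := if D = -3 then 6 else if D = -4 then 4 else 2

variable (T : SingularK3.{u})

/-- Beilinson's conjecture for `X` (question Q1): for all nonzero `ξ` and all generators `cγ` the
number `(2πi)⁻³ ⟨cγ, reg(ξ)⟩` is a nonzero rational multiple of `L'(h²_tr(X), -1)`. -/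
def SingularK3.Q1 (X : T.Surf) : Prop :=
  ∀ ξ : T.V X, ξ ≠ 0 → ∀ c : ℚ, c ≠ 0 → ∃ a : ℚ, a ≠ 0 ∧ (c : ℝ) * T.reg X ξ = a * T.L X

/-- The published facts. `deninger`: `L X` is not zero (functional equation) and there is an element
`ξ` for which the formula holds (Deninger's theorem on Hecke characters of imaginary quadratic
fields). `nonzero`: for all newforms `f` as above, `H³_M(M(f), ℚ(4))` is not zero (the same theorem).
`iso`: `h²_tr(X)` and `M(form X)` are isomorphic (Tate conjecture and finite-dimensionality for these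
motives). `decomp`: `M(f)` tensor the motive of `Spec F`, `F = ℚ[t]/(t^m - d)`, is the sum of the
motives of the twists of `f` by `d^j`, `j < m`. `cm_tw`: twists have the same CM field. `schuett`: the newforms with the same CM field are
twists of each other. `weinberger`: there are at most 66 such fields (class group of exponent at
most 2). -/
structure SingularK3.Facts : Prop where
  deninger : ∀ X, T.L X ≠ 0 ∧ ∃ (ξ : T.V X) (a : ℚ), a ≠ 0 ∧ T.reg X ξ = a * T.L X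
  nonzero : ∀ f, Nontrivial (T.M f)
  iso : ∀ X, Nonempty (T.V X ≃ₗ[ℚ] T.M (T.form X))
  decomp : ∀ X (d : ℚ), d ≠ 0 → Nonempty (T.HF X d ≃ₗ[ℚ]
    (∀ j : Fin (roots (T.CM (T.form X))), T.M (T.tw (d ^ (j : ℕ)) (T.form X))))
  cm_tw : ∀ (d : ℚ) f, d ≠ 0 → T.CM (T.tw d f) = T.CM f
  schuett : ∀ f g, T.CM f = T.CM g → ∃ d : ℚ, d ≠ 0 ∧ g = T.tw d f
  weinberger : ∃ s : Finset ℤ, s.card ≤ 66 ∧ ∀ f, T.CM f ∈ s

/-- all newforms with the CM field of discriminant `D` come from singular K3 surfaces over `ℚ`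
(Elkies and Schütt for the 65 known fields) -/
def SingularK3.Realized (D : ℤ) : Prop := ∀ f, T.CM f = D → ∃ X, T.form X = f

variable {T}

theorem one_lt_roots (D : ℤ) : 1 < roots D := by
  unfold roots
  split_ifs <;> norm_num

theorem q1_iff_of {X : T.Surf} (hL : T.L X ≠ 0) {ξ₀ : T.V X} {a₀ : ℚ} (ha₀ : a₀ ≠ 0)
    (hξ₀ : T.reg X ξ₀ = a₀ * T.L X) : T.Q1 X ↔ finrank ℚ (T.V X) = 1 := by
  have hne : ξ₀ ≠ 0 := fun h => by
    rw [h, map_zero] at hξ₀
    exact mul_ne_zero (by exact_mod_cast ha₀) hL hξ₀.symm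
  constructor
  · intro h
    rw [finrank_eq_one_iff_of_nonzero' ξ₀ hne]
    intro ξ
    by_cases h0 : ξ = 0
    · exact ⟨0, by rw [h0, zero_smul]⟩
    · obtain ⟨a, ha, hξ⟩ := h ξ h0 1 one_ne_zero
      rw [Rat.cast_one, one_mul] at hξ
      refine ⟨a / a₀, ?_⟩
      by_contra hne'
      obtain ⟨b, hb, hb'⟩ := h ((a / a₀) • ξ₀ - ξ) (sub_ne_zero.2 hne') 1 one_ne_zero
      rw [map_sub, map_smul, hξ, hξ₀, Rat.smul_def, Rat.cast_one, one_mul, Rat.cast_div] at hb'
      have ha' : (a₀ : ℝ) ≠ 0 := by exact_mod_cast ha₀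
      have h1 : (a : ℝ) / a₀ * (a₀ * T.L X) - a * T.L X = 0 := by
        field_simp
        ring
      rw [h1] at hb'
      exact mul_ne_zero (by exact_mod_cast hb) hL hb'.symm
  · intro h ξ hξ c hc
    rw [finrank_eq_one_iff_of_nonzero' ξ₀ hne] at h
    obtain ⟨q, hq⟩ := h ξ
    have hq0 : q ≠ 0 := fun h0 => hξ (by rw [← hq, h0, zero_smul])
    refine ⟨c * q * a₀, mul_ne_zero (mul_ne_zero hc hq0) ha₀, ?_⟩
    rw [← hq, map_smul, hξ₀, Rat.smul_def]
    push_cast
    ring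

/-- Q1 for one surface, without hypotheses -/
theorem q1_iff_single {X : T.Surf} (hL : T.L X ≠ 0) : T.Q1 X ↔ (∀ ξ : T.V X, ξ = 0) ∨
    finrank ℚ (T.V X) = 1 ∧ ∃ (ξ : T.V X) (a : ℚ), a ≠ 0 ∧ T.reg X ξ = a * T.L X := by
  constructor
  · intro h
    by_cases h0 : ∀ ξ : T.V X, ξ = 0
    · exact Or.inl h0
    · push Not at h0
      obtain ⟨ξ₀, hξ⟩ := h0
      obtain ⟨a₀, ha₀, hξ₀⟩ := h ξ₀ hξ 1 one_ne_zero
      rw [Rat.cast_one, one_mul] at hξ₀
      exact Or.inr ⟨(q1_iff_of hL ha₀ hξ₀).1 h, ξ₀, a₀, ha₀, hξ₀⟩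
  · rintro (h | ⟨h, ξ₀, a₀, ha₀, hξ₀⟩)
    · exact fun ξ hξ => absurd (h ξ) hξ
    · exact (q1_iff_of hL ha₀ hξ₀).2 h

theorem SingularK3.Facts.q1_iff (hT : T.Facts) (X : T.Surf) : T.Q1 X ↔ finrank ℚ (T.V X) = 1 := by
  obtain ⟨hL, ξ₀, a₀, ha₀, hξ₀⟩ := hT.deninger X
  exact q1_iff_of hL ha₀ hξ₀

theorem SingularK3.Facts.q1_iff' (hT : T.Facts) (X : T.Surf) :
    T.Q1 X ↔ finrank ℚ (T.M (T.form X)) = 1 := by
  obtain ⟨e⟩ := hT.iso X
  rw [hT.q1_iff, e.finrank_eq]

/-- a product of nonzero spaces -/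
theorem finrank_pi_eq_iff {m : ℕ} (hm : 0 < m) (W : Fin m → Type u) [∀ j, AddCommGroup (W j)]
    [∀ j, Module ℚ (W j)] [∀ j, Nontrivial (W j)] :
    finrank ℚ (∀ j, W j) = m ↔ ∀ j, finrank ℚ (W j) = 1 := by
  constructor
  · intro h
    have hfin : Module.Finite ℚ (∀ j, W j) := Module.finite_of_finrank_pos (by rw [h]; exact hm)
    have hW : ∀ j, Module.Finite ℚ (W j) := fun j =>
      Module.Finite.of_surjective (LinearMap.proj j : (∀ j, W j) →ₗ[ℚ] W j)
        (LinearMap.proj_surjective j)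
    rw [Module.finrank_pi_fintype] at h
    have h2 : ∀ j ∈ (Finset.univ : Finset (Fin m)), 1 ≤ finrank ℚ (W j) :=
      fun j _ => Module.finrank_pos
    have h3 : ∑ j : Fin m, 1 = ∑ j : Fin m, finrank ℚ (W j) := by
      rw [h, Finset.sum_const, Finset.card_univ, Fintype.card_fin, smul_eq_mul, mul_one]
    exact fun j => ((Finset.sum_eq_sum_iff_of_le h2).1 h3 j (Finset.mem_univ j)).symm
  · intro h
    have hW : ∀ j, Module.Finite ℚ (W j) := fun j =>
      Module.finite_of_finrank_pos (by rw [h j]; exact one_pos)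
    rw [Module.finrank_pi_fintype]
    simp [h]

theorem SingularK3.Facts.finrank_iff (hT : T.Facts) (X : T.Surf) {d : ℚ} (hd : d ≠ 0) :
    finrank ℚ (T.HF X d) = roots (T.CM (T.form X)) ↔
      ∀ j : Fin (roots (T.CM (T.form X))), finrank ℚ (T.M (T.tw (d ^ (j : ℕ)) (T.form X))) = 1 := by
  obtain ⟨e⟩ := hT.decomp X d hd
  have := hT.nonzero
  rw [e.finrank_eq]
  exact finrank_pi_eq_iff (lt_trans one_pos (one_lt_roots _))
    (fun j : Fin (roots (T.CM (T.form X))) => T.M (T.tw (d ^ (j : ℕ)) (T.form X)))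

/-- `dim H³_M(X_F, ℚ(4))_tr = [F : ℚ]` for all `F = ℚ[t]/(t^m - d)` -/
def SingularK3.Dim (X : T.Surf) : Prop :=
  ∀ d : ℚ, d ≠ 0 → finrank ℚ (T.HF X d) = roots (T.CM (T.form X))

theorem SingularK3.Facts.q1_of_dim (hT : T.Facts) {X₀ : T.Surf} (h : SingularK3.Dim X₀)
    (X : T.Surf) (hX : T.CM (T.form X) = T.CM (T.form X₀)) : T.Q1 X := by
  obtain ⟨d, hd, hf⟩ := hT.schuett _ _ hX.symm
  have h1 : finrank ℚ (T.M (T.tw (d ^ 1) (T.form X₀))) = 1 :=
    (hT.finrank_iff X₀ hd).1 (h d hd) ⟨1, one_lt_roots _⟩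
  rw [pow_one] at h1
  rw [hT.q1_iff', hf]
  exact h1

theorem SingularK3.Facts.dim_of_q1 (hT : T.Facts) {X₀ : T.Surf}
    (hR : T.Realized (T.CM (T.form X₀))) (h : ∀ X, T.CM (T.form X) = T.CM (T.form X₀) → T.Q1 X) :
    SingularK3.Dim X₀ := by
  intro d hd
  rw [hT.finrank_iff X₀ hd]
  intro j
  have hcm := hT.cm_tw (d ^ (j : ℕ)) (T.form X₀) (pow_ne_zero _ hd)
  obtain ⟨X, hX⟩ := hR _ hcm
  have h1 := (hT.q1_iff' X).1 (h X (by rw [hX, hcm]))
  rw [hX] at h1
  exact h1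

/-- one surface for each field -/
theorem SingularK3.Facts.exists_finset (hT : T.Facts) : ∃ S : Finset T.Surf, S.card ≤ 66 ∧
    (∀ X₀ ∈ S, ∀ X₁ ∈ S, T.CM (T.form X₀) = T.CM (T.form X₁) → X₀ = X₁) ∧
    ∀ X, ∃ X₀ ∈ S, T.CM (T.form X) = T.CM (T.form X₀) := by
  classical
  obtain ⟨s, hs, hs'⟩ := hT.weinberger
  let P : ℤ → Prop := fun D => ∃ X, T.CM (T.form X) = D
  let c : {D // D ∈ s.filter P} → T.Surf := fun D => (Finset.mem_filter.1 D.2).2.choose
  have hc : ∀ D : {D // D ∈ s.filter P}, T.CM (T.form (c D)) = D.1 := fun D =>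
    (Finset.mem_filter.1 D.2).2.choose_spec
  refine ⟨(s.filter P).attach.image c, ?_, ?_, fun X => ?_⟩
  · refine Finset.card_image_le.trans ?_
    rw [Finset.card_attach]
    exact (Finset.card_filter_le _ _).trans hs
  · intro X₀ h₀ X₁ h₁ h
    obtain ⟨D₀, -, rfl⟩ := Finset.mem_image.1 h₀
    obtain ⟨D₁, -, rfl⟩ := Finset.mem_image.1 h₁
    rw [hc, hc] at h
    rw [Subtype.ext h]
  · have hD : T.CM (T.form X) ∈ s.filter P := Finset.mem_filter.2 ⟨hs' _, X, rfl⟩
    exact ⟨c ⟨_, hD⟩, Finset.mem_image_of_mem _ (Finset.mem_attach _ _), (hc ⟨_, hD⟩).symm⟩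

end Pool.Agent.Q28.SK
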